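import Pool.Agent.TH377.Dyn.Dens
import Pool.Agent.N666.TM.Turan

set_option autoImplicit false
set_option linter.unusedSectionVars false

/-! # The density of the good integral coordinate vectors modulo the square of a prime number -/

namespace Pool.Agent.N692.TS

open NumberField IsDedekindDomain Pool.Agent.TH377.Sup
open Pool.Agent.N666.TM (dens)

/-- the number of elements of the preimage of a set -/
theorem ncard_preimage {A B : Type*} [AddCommGroup A] [AddCommGroup B] [Finite A] (f : A →+ B)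
    (hf : Function.Surjective f) (S : Set B) :
    (f ⁻¹' S).ncard * Nat.card B = S.ncard * Nat.card A := by
  classical
  have h : ∀ S : Set B, (f ⁻¹' S).ncard = S.ncard * Nat.card f.ker := by
    intro S
    let s := Function.surjInv hf
    have hs : ∀ x, f (s x) = x := Function.surjInv_eq hf
    rw [← Nat.card_coe_set_eq, ← Nat.card_coe_set_eq, ← Nat.card_prod]
    refine Nat.card_congr ⟨fun a => (⟨f a.1, a.2⟩, ⟨a.1 - s (f a.1), ?_⟩),
      fun b => ⟨s b.1.1 + b.2.1, ?_⟩, ?_, ?_⟩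
    · rw [AddMonoidHom.mem_ker, map_sub, hs, sub_self]
    · have h2 : f b.2.1 = 0 := b.2.2
      rw [Set.mem_preimage, map_add, hs, h2, add_zero]
      exact b.1.2
    · intro a
      apply Subtype.ext
      simp
    · rintro ⟨⟨b, hb⟩, ⟨k, hk⟩⟩
      have h2 : f k = 0 := hk
      refine Prod.ext (Subtype.ext ?_) (Subtype.ext ?_)
      · simp only
        rw [map_add, hs, h2, add_zero]
      · simp only
        rw [map_add, hs, h2, add_zero, add_sub_cancel_left]
  have h1 := h Set.univ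
  rw [Set.preimage_univ, Set.ncard_univ, Set.ncard_univ] at h1
  rw [h S, h1]
  ring

section

variable {K : Type} [Field K] [NumberField K] {m : ℕ} (ω : Module.Basis (Fin m) ℤ (𝓞 K))
  (d : ℕ) (v : HeightOneSpectrum (𝓞 K))

/-- the vector of integers with given integral coordinates -/
noncomputable def vec (x : Fin (d + 2) × Fin m → ℤ) (i : Fin (d + 2)) : 𝓞 K :=
  ∑ j, x (i, j) • ω j

/-- the homomorphism from the residues modulo `p ^ 2` -/
noncomputable def res (p : ℕ) (hp : Ideal.absNorm v.asIdeal = p) : ZMod (p ^ 2) →+ 𝓞 K ⧸ v.asIdeal ^ 2 :=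
  ZMod.lift (p ^ 2) ⟨Int.castAddHom (𝓞 K ⧸ v.asIdeal ^ 2), by
    have h1 : (p : 𝓞 K) ^ 2 ∈ v.asIdeal ^ 2 := by
      apply Ideal.pow_mem_pow
      rw [← hp]
      exact Ideal.absNorm_mem _
    have h2 := Ideal.Quotient.eq_zero_iff_mem.mpr h1
    push_cast
    simpa using h2⟩

theorem res_coe (p : ℕ) (hp : Ideal.absNorm v.asIdeal = p) (x : ℤ) :
    res v p hp (x : ZMod (p ^ 2)) = (x : 𝓞 K ⧸ v.asIdeal ^ 2) := by
  unfold res
  rw [ZMod.lift_coe]
  rfl

/-- the homomorphism on the vectors of coordinates -/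
noncomputable def Phi (p : ℕ) (hp : Ideal.absNorm v.asIdeal = p) :
    (Fin (d + 2) × Fin m → ZMod (p ^ 2)) →+ (Fin (d + 2) → 𝓞 K ⧸ v.asIdeal ^ 2) where
  toFun ρ i := ∑ j, res v p hp (ρ (i, j)) * Ideal.Quotient.mk _ (ω j)
  map_zero' := by
    funext i
    simp
  map_add' ρ ρ' := by
    funext i
    simp [add_mul, Finset.sum_add_distrib]

theorem Phi_red (p : ℕ) (hp : Ideal.absNorm v.asIdeal = p) (x : Fin (d + 2) × Fin m → ℤ) :
    Phi ω d v p hp (Pool.Agent.Y722.HS.red (p ^ 2) x) =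
      Pool.Agent.TH120.Sec.red (v.asIdeal ^ 2) (d + 2) (vec ω d x) := by
  funext i
  unfold Pool.Agent.TH120.Sec.red vec Pool.Agent.Y722.HS.red
  simp only [Phi, AddMonoidHom.coe_mk, ZeroHom.coe_mk]
  rw [map_sum]
  refine Finset.sum_congr rfl fun j _ => ?_
  rw [res_coe, zsmul_eq_mul, map_mul, map_intCast]

theorem Phi_surj (p : ℕ) (hp : Ideal.absNorm v.asIdeal = p) : Function.Surjective (Phi ω d v p hp) := by
  intro y
  have hy : ∀ i, ∃ z : 𝓞 K, Ideal.Quotient.mk (v.asIdeal ^ 2) z = y i := fun i =>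
    Ideal.Quotient.mk_surjective (y i)
  choose z hz using hy
  refine ⟨Pool.Agent.Y722.HS.red (p ^ 2) (fun q => ω.repr (z q.1) q.2), ?_⟩
  rw [Phi_red]
  funext i
  unfold Pool.Agent.TH120.Sec.red vec
  simp only
  rw [ω.sum_repr, hz]

/-- the good classes of coordinates -/
noncomputable def Gd (p : ℕ) (hp : Ideal.absNorm v.asIdeal = p) :
    Set (Fin (d + 2) × Fin m → ZMod (p ^ 2)) := Phi ω d v p hp ⁻¹' (GoodV v d)

theorem mem_Gd (p : ℕ) (hp : Ideal.absNorm v.asIdeal = p) (x : Fin (d + 2) × Fin m → ℤ)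
    (h : Pool.Agent.Y722.HS.red (p ^ 2) x ∈ Gd ω d v p hp) :
    vec ω d x 0 ∈ v.asIdeal ∧ vec ω d x 0 ∉ v.asIdeal ^ 2 ∧
      IrrMod v d fun i => vec ω d x i.succ := by
  apply good_iff v d
  have := h
  unfold Gd at this
  rw [Set.mem_preimage, Phi_red] at this
  exact this

theorem dens_Gd (p : ℕ) (hp : Ideal.absNorm v.asIdeal = p) (hd : 2 ≤ d) (hpp : p.Prime) :
    1 / (4 * d) * (1 / (p : ℝ) - 1 / (p : ℝ) ^ 2) ≤ dens (Gd ω d v p hp) := by
  classical
  have hfin := Pool.Agent.TH120.Sec.finite_sq v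
  have hp0 : (0 : ℝ) < p := by exact_mod_cast hpp.pos
  have : NeZero (p ^ 2) := ⟨pow_ne_zero _ hpp.ne_zero⟩
  have h1 := ncard_preimage (Phi ω d v p hp) (Phi_surj ω d v p hp) (GoodV v d)
  have hA : Nat.card (Fin (d + 2) × Fin m → ZMod (p ^ 2)) =
      (p ^ 2) ^ Fintype.card (Fin (d + 2) × Fin m) := by
    rw [Nat.card_fun, Nat.card_zmod, Nat.card_eq_fintype_card]
  have hB : Nat.card (Fin (d + 2) → 𝓞 K ⧸ v.asIdeal ^ 2) = (p ^ 2) ^ (d + 2) := by
    rw [Nat.card_fun, Pool.Agent.W417.SecC.D2.card_sq, Nat.card_fin, hp]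
  rw [hA, hB] at h1
  have h2 := Pool.Agent.TH377.Dyn.badV_card2 v d hd
  have h3 : (GoodV v d).ncard + ((GoodV v d)ᶜ).ncard = (p ^ 2) ^ (d + 2) := by
    rw [Set.ncard_add_ncard_compl, hB]
  rw [hp] at h2
  have h3' : ((GoodV v d).ncard : ℝ) + (((GoodV v d)ᶜ).ncard : ℝ) = ((p : ℝ) ^ 2) ^ (d + 2) := by
    exact_mod_cast h3
  have h1' : ((Gd ω d v p hp).ncard : ℝ) * ((p : ℝ) ^ 2) ^ (d + 2) =
      ((GoodV v d).ncard : ℝ) * ((p : ℝ) ^ 2) ^ Fintype.card (Fin (d + 2) × Fin m) := by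
    exact_mod_cast h1
  unfold dens
  push_cast
  have hd0 : (0 : ℝ) < ((p : ℝ) ^ 2) ^ (d + 2) := by positivity
  have he : ((Gd ω d v p hp).ncard : ℝ) / ((p : ℝ) ^ 2) ^ Fintype.card (Fin (d + 2) × Fin m) =
      ((GoodV v d).ncard : ℝ) / ((p : ℝ) ^ 2) ^ (d + 2) := by
    rw [div_eq_div_iff (by positivity) hd0.ne', h1']
  rw [he, le_div_iff₀ hd0]
  linarith

end

end Pool.Agent.N692.TS
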