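import Pool.Agent.N692.TS.Sup
import Pool.Agent.N692.TS.Pre
import Pool.Agent.N666.TM.Diag

set_option autoImplicit false
set_option linter.unusedSectionVars false

/-! # Thin sequences of coefficient vectors -/

namespace Pool.Agent.N692.TS

open NumberField IsDedekindDomain Pool.Agent.TH377.Sup Finset Filter
open Pool.Agent.N666.TM (dens Well NullIn turan fl)

section

variable {K : Type} [Field K]

/-- a prime ideal of norm greater than `M` at which the polynomial is good -/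
def LocGood [NumberField K] (d M : ℕ) (y : Fin (d + 2) → 𝓞 K) : Prop :=
  ∃ v : HeightOneSpectrum (𝓞 K), ((M.factorial : ℕ) : 𝓞 K) ∉ v.asIdeal ∧ y 0 ∈ v.asIdeal ∧
    y 0 ∉ v.asIdeal ^ 2 ∧ IrrMod v d fun i => y i.succ

theorem LocGood.mono [NumberField K] {d M M' : ℕ} (h : M ≤ M') {y : Fin (d + 2) → 𝓞 K}
    (hy : LocGood d M' y) : LocGood d M y := by
  obtain ⟨v, h1, h2⟩ := hy
  refine ⟨v, fun h3 => h1 ?_, h2⟩
  obtain ⟨k, hk⟩ := Nat.factorial_dvd_factorial h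
  rw [hk]
  push_cast
  exact Ideal.mul_mem_right _ _ h3

theorem not_mem_of_norm [NumberField K] (v : HeightOneSpectrum (𝓞 K)) {p M : ℕ} (hp : p.Prime)
    (hM : M < p) (hv : Ideal.absNorm v.asIdeal = p) : ((M.factorial : ℕ) : 𝓞 K) ∉ v.asIdeal := by
  intro h
  have hpv : (p : 𝓞 K) ∈ v.asIdeal := by
    rw [← hv]
    exact Ideal.absNorm_mem _
  have hcop : Nat.Coprime p M.factorial := (Nat.Prime.coprime_iff_not_dvd hp).mpr (fun h =>
    absurd ((Nat.Prime.dvd_factorial hp).mp h) (by omega))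
  have h1 : IsCoprime ((p : ℤ)) ((M.factorial : ℤ)) := Nat.isCoprime_iff_coprime.mpr hcop
  obtain ⟨a, b, hab⟩ := h1
  apply v.isPrime.ne_top
  rw [Ideal.eq_top_iff_one]
  have h2 : (1 : 𝓞 K) = (a : 𝓞 K) * (p : 𝓞 K) + (b : 𝓞 K) * ((M.factorial : ℕ) : 𝓞 K) := by
    have := congrArg (fun z : ℤ => (z : 𝓞 K)) hab
    push_cast at this
    rw [← this]
  rw [h2]
  exact Ideal.add_mem _ (Ideal.mul_mem_left _ _ hpv) (Ideal.mul_mem_left _ _ h)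

theorem null_of_well [NumberField K] {m : ℕ} (ω : Module.Basis (Fin m) ℤ (𝓞 K)) (d : ℕ)
    (hd : 2 ≤ d) (M : ℕ) {S : ℕ → Finset ℕ} {x : ℕ → Fin (d + 2) × Fin m → ℤ}
    (hw : ∃ κ : ℝ, 0 < κ ∧ ∃ N₀ : ℕ, ∀ N : ℕ, N₀ ≤ N → ∀ H : ℕ, (H : ℝ) ≤ (N : ℝ) ^ κ →
      Well (S N) x H) : NullIn S {n : ℕ | ¬ LocGood d M (vec ω d (x n))} := by
  classical
  obtain ⟨κ, hκ, N₁, hN₁⟩ := hw
  intro ε hε
  set ε' : ℝ := ε / 2 with hε'
  have hε'0 : 0 < ε' := by positivity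
  have hd0 : (0 : ℝ) < d := by exact_mod_cast (by omega : 0 < d)
  obtain ⟨P, v, hP, hPsum⟩ := supply_sum K M (4 * d * (2 / ε'))
  obtain ⟨y, hy⟩ : ∃ y : ℕ, ∀ p ∈ P, p < y := by
    obtain ⟨y, hy⟩ := P.exists_nat_subset_range
    exact ⟨y, fun p hp => Finset.mem_range.mp (hy hp)⟩
  have hev : ∀ᶠ N : ℕ in atTop, ((y ^ 4 + ⌈4 / ε'⌉₊ : ℕ) : ℝ) ≤ (N : ℝ) ^ κ := by
    have h1 : Tendsto (fun N : ℕ => (N : ℝ) ^ κ) atTop atTop :=
      (tendsto_rpow_atTop hκ).comp tendsto_natCast_atTop_atTop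
    exact h1.eventually_ge_atTop _
  obtain ⟨N₂, hN₂⟩ := eventually_atTop.mp hev
  refine ⟨max N₁ N₂, fun N hN => ?_⟩
  set H : ℕ := y ^ 4 + ⌈4 / ε'⌉₊ with hH
  have hws := hN₁ N ((le_max_left _ _).trans hN) H (hN₂ N ((le_max_right _ _).trans hN))
  set Ω : ∀ p : ℕ, Set (Fin (d + 2) × Fin m → ZMod (p ^ 2)) := fun p =>
    if hp : Ideal.absNorm (v p).asIdeal = p then Gd ω d (v p) p hp else ∅ with hΩ
  have hΩp : ∀ p (hp : p ∈ P), Ω p = Gd ω d (v p) p (hP p hp).2.2 := by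
    intro p hp
    rw [hΩ]
    simp only
    rw [dif_pos (hP p hp).2.2]
  have hμ : 2 / ε' ≤ ∑ p ∈ P, dens (Ω p) := by
    calc 2 / ε' = 1 / (4 * d) * (4 * d * (2 / ε')) := by field_simp
      _ ≤ 1 / (4 * d) * ∑ p ∈ P, (1 / (p : ℝ) - 1 / (p : ℝ) ^ 2) := by gcongr
      _ = ∑ p ∈ P, 1 / (4 * d) * (1 / (p : ℝ) - 1 / (p : ℝ) ^ 2) := by rw [Finset.mul_sum]
      _ ≤ _ := Finset.sum_le_sum fun p hp => by
        rw [hΩp p hp]
        exact dens_Gd ω d (v p) p _ hd (hP p hp).1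
  have hμ0 : 0 < ∑ p ∈ P, dens (Ω p) := lt_of_lt_of_le (by positivity) hμ
  have h1 := turan hws P (fun p => p ^ 2) (fun p hp => Nat.pos_of_ne_zero (by
      have := (hP p hp).1.pos
      positivity)) (fun p hp p' hp' hne =>
      Nat.Coprime.pow 2 2 ((Nat.coprime_primes (hP p hp).1 (hP p' hp').1).mpr hne))
    (fun p hp p' hp' => by
      have a1 : p ^ 2 ≤ y ^ 2 := Nat.pow_le_pow_left (hy p hp).le 2
      have a2 : p' ^ 2 ≤ y ^ 2 := Nat.pow_le_pow_left (hy p' hp').le 2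
      calc p ^ 2 * p' ^ 2 ≤ y ^ 2 * y ^ 2 := Nat.mul_le_mul a1 a2
        _ = y ^ 4 := by ring
        _ ≤ 2 * H + 1 := by omega)
    (fun p => Ω p) _ rfl hμ0
  have hsub : {n : ℕ | n ∈ S N ∧ n ∈ {n : ℕ | ¬ LocGood d M (vec ω d (x n))}} ⊆
      ↑((S N).filter fun n => ∀ p ∈ P, Pool.Agent.Y722.HS.red (p ^ 2) (x n) ∉ Ω p) := by
    rintro n ⟨hn, hn'⟩
    rw [Finset.mem_coe, Finset.mem_filter]
    refine ⟨hn, fun p hp hmem => hn' ?_⟩
    rw [hΩp p hp] at hmem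
    exact ⟨v p, not_mem_of_norm (v p) (hP p hp).1 (hP p hp).2.1 (hP p hp).2.2,
      mem_Gd ω d (v p) p _ (x n) hmem⟩
  have h2 : ({n : ℕ | n ∈ S N ∧ n ∈ {n : ℕ | ¬ LocGood d M (vec ω d (x n))}}.ncard : ℝ) ≤
      (((S N).filter fun n => ∀ p ∈ P, Pool.Agent.Y722.HS.red (p ^ 2) (x n) ∉ Ω p).card : ℝ) := by
    have := Set.ncard_le_ncard hsub (Finset.finite_toSet _)
    rw [Set.ncard_coe_finset] at this
    exact_mod_cast this
  refine h2.trans (h1.trans ?_)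
  have h3 : 2 / (∑ p ∈ P, dens (Ω p)) ≤ ε' := by
    rw [div_le_iff₀ hμ0]
    rw [div_le_iff₀ hε'0] at hμ
    linarith
  have h4 : (4 : ℝ) / (2 * H + 1) ≤ ε' := by
    have h4 : 4 / ε' ≤ (H : ℝ) := (Nat.le_ceil _).trans (by exact_mod_cast (by omega : ⌈4 / ε'⌉₊ ≤ H))
    rw [div_le_iff₀ hε'0] at h4
    rw [div_le_iff₀ (by positivity)]
    nlinarith
  have h5 : 2 / (∑ p ∈ P, dens (Ω p)) + 4 / (2 * (H : ℝ) + 1) ≤ ε := by
    rw [hε'] at h3 h4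
    linarith
  gcongr

/-! ### isomorphic rings -/

/-- the structure constants of the ring of integers in an integral basis -/
noncomputable def code {m : ℕ} (ω : Module.Basis (Fin m) ℤ (𝓞 K)) (q : Fin m × Fin m × Fin m) : ℤ :=
  ω.repr (ω q.1 * ω q.2.1) q.2.2

end

section transfer

variable {K₀ K : Type} [Field K₀] [Field K] {m : ℕ}
  (ω₀ : Module.Basis (Fin m) ℤ (𝓞 K₀)) (ω : Module.Basis (Fin m) ℤ (𝓞 K))

theorem exists_equiv (h : code ω₀ = code ω) :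
    ∃ e : 𝓞 K₀ ≃+* 𝓞 K, ∀ j, e (ω₀ j) = ω j := by
  let f : 𝓞 K₀ ≃ₗ[ℤ] 𝓞 K := ω₀.equiv ω (Equiv.refl _)
  have hf : ∀ j, f (ω₀ j) = ω j := fun j => by simp [f]
  have hmulb : ∀ i j, f (ω₀ i * ω₀ j) = f (ω₀ i) * f (ω₀ j) := by
    intro i j
    rw [hf, hf]
    have h1 : ω₀ i * ω₀ j = ∑ k, code ω₀ (i, j, k) • ω₀ k := (ω₀.sum_repr _).symm
    have h2 : ω i * ω j = ∑ k, code ω (i, j, k) • ω k := (ω.sum_repr _).symm
    rw [h1, h2, map_sum, h]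
    refine Finset.sum_congr rfl fun k _ => ?_
    rw [map_zsmul, hf]
  have hmul : ∀ x y, f (x * y) = f x * f y := by
    intro x y
    have hB : ((LinearMap.mul ℤ (𝓞 K₀)).compr₂ f.toLinearMap) =
        (LinearMap.mul ℤ (𝓞 K)).compl₁₂ f.toLinearMap f.toLinearMap := by
      refine ω₀.ext fun i => ω₀.ext fun j => ?_
      simpa using hmulb i j
    have := congrArg (fun g => g x y) hB
    simpa using this
  exact ⟨{ f with map_mul' := hmul, map_add' := map_add f }, hf⟩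

theorem locGood_transfer [NumberField K₀] [NumberField K] (e : 𝓞 K₀ ≃+* 𝓞 K) (d M : ℕ)
    (y : Fin (d + 2) → 𝓞 K₀) (h : LocGood d M y) : LocGood d M (fun i => e (y i)) := by
  obtain ⟨v, h1, h2, h3, h4, h5⟩ := h
  have hmem : ∀ (I : Ideal (𝓞 K₀)) (x : 𝓞 K₀), e x ∈ I.map (e : 𝓞 K₀ →+* 𝓞 K) ↔ x ∈ I := by
    intro I x
    change e x ∈ Ideal.map e I ↔ x ∈ I
    rw [Ideal.mem_map_of_equiv]
    constructor
    · rintro ⟨z, hz, hzx⟩
      rwa [← e.injective hzx]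
    · intro hx
      exact ⟨x, hx, rfl⟩
  have hprime : (v.asIdeal.map (e : 𝓞 K₀ →+* 𝓞 K)).IsPrime :=
    Ideal.map_isPrime_of_equiv e
  have hbot : v.asIdeal.map (e : 𝓞 K₀ →+* 𝓞 K) ≠ ⊥ := by
    intro hb
    apply v.ne_bot
    exact (Ideal.map_eq_bot_iff_of_injective (f := (e : 𝓞 K₀ →+* 𝓞 K)) e.injective).mp hb
  have hpow : v.asIdeal.map (e : 𝓞 K₀ →+* 𝓞 K) ^ 2 = (v.asIdeal ^ 2).map (e : 𝓞 K₀ →+* 𝓞 K) :=
    (Ideal.map_pow _ _ _).symm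
  refine ⟨⟨v.asIdeal.map (e : 𝓞 K₀ →+* 𝓞 K), hprime, hbot⟩, ?_, ?_, ?_, ?_, ?_⟩
  · change ((M.factorial : ℕ) : 𝓞 K) ∉ v.asIdeal.map (e : 𝓞 K₀ →+* 𝓞 K)
    rw [← map_natCast e, hmem]
    exact h1
  · exact (hmem _ _).mpr h2
  · change e (y 0) ∉ v.asIdeal.map (e : 𝓞 K₀ →+* 𝓞 K) ^ 2
    rw [hpow, hmem]
    exact h3
  · change e (y (Fin.last d).succ) ∉ v.asIdeal.map (e : 𝓞 K₀ →+* 𝓞 K)
    rw [hmem]
    exact h4
  · let E : (𝓞 K₀ ⧸ v.asIdeal) ≃+* (𝓞 K ⧸ v.asIdeal.map (e : 𝓞 K₀ →+* 𝓞 K)) :=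
      Ideal.quotientEquiv _ _ e rfl
    have hE : ∀ x, E (Ideal.Quotient.mk _ x) = Ideal.Quotient.mk _ (e x) := fun x => rfl
    have h6 : (pol fun i : Fin (d + 1) => Ideal.Quotient.mk v.asIdeal (y i.succ)).map
        (E : (𝓞 K₀ ⧸ v.asIdeal) →+* (𝓞 K ⧸ v.asIdeal.map (e : 𝓞 K₀ →+* 𝓞 K))) =
        pol fun i : Fin (d + 1) => Ideal.Quotient.mk
          (v.asIdeal.map (e : 𝓞 K₀ →+* 𝓞 K)) (e (y i.succ)) := by
      rw [pol_map]
      rfl
    change Irreducible (pol fun i : Fin (d + 1) => Ideal.Quotient.mk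
          (v.asIdeal.map (e : 𝓞 K₀ →+* 𝓞 K)) (e (y i.succ)))
    rw [← h6]
    exact (MulEquiv.irreducible_iff (Polynomial.mapEquiv E)).mpr h5

end transfer

/-- a subset of a null set -/
theorem null_mono {S : ℕ → Finset ℕ} {E E' : Set ℕ} (hE : E ⊆ E') (h : NullIn S E') : NullIn S E := by
  intro ε hε
  obtain ⟨N₀, hN₀⟩ := h ε hε
  refine ⟨N₀, fun N hN => le_trans ?_ (hN₀ N hN)⟩
  have h1 : {t : ℕ | t ∈ S N ∧ t ∈ E} ⊆ {t : ℕ | t ∈ S N ∧ t ∈ E'} := fun t ht => ⟨ht.1, hE ht.2⟩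
  exact_mod_cast Set.ncard_le_ncard h1 ((S N).finite_toSet.subset fun t ht => ht.1)

/-- the exceptional integers of a code -/
def Exc (F : ℕ → ℕ → Finset ℝ) (a : ℕ → ℕ → ℝ → ℝ)
    (κ : Σ m : ℕ, (Fin m × Fin m × Fin m → ℤ)) (d M : ℕ) : Set ℕ :=
  {n | ∃ (K : Type) (_ : Field K) (_ : NumberField K) (ω : Module.Basis (Fin κ.1) ℤ (𝓞 K)),
    code ω = κ.2 ∧ ¬ LocGood d M (vec ω d (fl (fun q : Fin (d + 2) × Fin κ.1 => F q.1 q.2)
      (fun q => a q.1 q.2) n))}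

theorem exc_null {F : ℕ → ℕ → Finset ℝ} {a : ℕ → ℕ → ℝ → ℝ} {c : ℕ → ℕ → ℝ}
    (h : ∀ i j, c i j ∈ F i j ∧ (∀ t ∈ F i j, t ≤ c i j) ∧ 0 < c i j ∧ (∀ m : ℕ, c i j ≠ m) ∧
      0 < a i j (c i j))
    (hc : Function.Injective fun q : ℕ × ℕ => c q.1 q.2)
    (κ : Σ m : ℕ, (Fin m × Fin m × Fin m → ℤ)) (d : ℕ) (hd : 2 ≤ d) (M : ℕ) :
    NullIn (fun N => Ioc N (2 * N)) (Exc F a κ d M) ∧
      NullIn Pool.Agent.N666.VE.primes (Exc F a κ d M) := by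
  classical
  by_cases hex : ∃ (K : Type) (_ : Field K) (_ : NumberField K)
      (ω : Module.Basis (Fin κ.1) ℤ (𝓞 K)), code ω = κ.2
  · obtain ⟨K₀, _, _, ω₀, hω₀⟩ := hex
    have hsub : Exc F a κ d M ⊆ {n : ℕ | ¬ LocGood d M (vec ω₀ d
        (fl (fun q : Fin (d + 2) × Fin κ.1 => F q.1 q.2) (fun q => a q.1 q.2) n))} := by
      rintro n ⟨K, _, _, ω, hω, hn⟩ hgood
      apply hn
      obtain ⟨e, he⟩ := exists_equiv ω₀ ω (hω₀.trans hω.symm)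
      have h1 := locGood_transfer e d M _ hgood
      have h2 : (fun i => e (vec ω₀ d (fl (fun q : Fin (d + 2) × Fin κ.1 => F q.1 q.2)
          (fun q => a q.1 q.2) n) i)) = vec ω d
          (fl (fun q : Fin (d + 2) × Fin κ.1 => F q.1 q.2) (fun q => a q.1 q.2) n) := by
        funext i
        unfold vec
        rw [map_sum]
        refine Finset.sum_congr rfl fun j _ => ?_
        rw [map_zsmul, he]
      rwa [h2] at h1
    have hne : Nonempty (Fin κ.1) := ω₀.index_nonempty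
    have hinj : Function.Injective fun q : Fin (d + 2) × Fin κ.1 => c q.1 q.2 := by
      intro q q' hqq
      have := @hc ((q.1 : ℕ), (q.2 : ℕ)) ((q'.1 : ℕ), (q'.2 : ℕ)) hqq
      rw [Prod.mk.injEq] at this
      exact Prod.ext (Fin.ext this.1) (Fin.ext this.2)
    obtain ⟨w₁, w₂⟩ := Pool.Agent.N666.TM.fl_well (ι := Fin (d + 2) × Fin κ.1)
      (F := fun q => F q.1 q.2) (a := fun q => a q.1 q.2) (c := fun q => c q.1 q.2)
      (fun q => h q.1 q.2) hinj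
    have g₁ := null_of_well ω₀ d hd M w₁
    have g₂ := null_of_well ω₀ d hd M w₂
    exact ⟨null_mono hsub g₁, null_mono hsub g₂⟩
  · have he : Exc F a κ d M = ∅ := by
      rw [Set.eq_empty_iff_forall_notMem]
      rintro n ⟨K, i1, i2, ω, hω, -⟩
      exact hex ⟨K, i1, i2, ω, hω⟩
    rw [he]
    constructor <;>
    · intro ε hε
      refine ⟨0, fun N _ => ?_⟩
      simp only [Set.mem_empty_iff_false, and_false, Set.ofPred_false, Set.ncard_empty, Nat.cast_zero]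
      positivity

theorem null_union {ι : Type*} (s : Finset ι) {S : ℕ → Finset ℕ} (E : ι → Set ℕ)
    (h : ∀ i ∈ s, NullIn S (E i)) : NullIn S (⋃ i ∈ s, E i) := by
  classical
  intro ε hε
  have hc0 : (0 : ℝ) < s.card + 1 := by positivity
  have h' : ∀ i : ι, ∃ N₀ : ℕ, i ∈ s → ∀ N : ℕ, N₀ ≤ N →
      ({t : ℕ | t ∈ S N ∧ t ∈ E i}.ncard : ℝ) ≤ ε / (s.card + 1) * (S N).card := by
    intro i
    by_cases hi : i ∈ s
    · obtain ⟨N₀, hN₀⟩ := h i hi (ε / (s.card + 1)) (by positivity)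
      exact ⟨N₀, fun _ => hN₀⟩
    · exact ⟨0, fun h => absurd h hi⟩
  choose g hg using h'
  refine ⟨s.sup g, fun N hN => ?_⟩
  have hsub : {t : ℕ | t ∈ S N ∧ t ∈ ⋃ i ∈ s, E i} ⊆
      ↑(s.biUnion fun i => (S N).filter fun t => t ∈ E i) := by
    rintro t ⟨ht, ht'⟩
    simp only [Set.mem_iUnion] at ht'
    obtain ⟨i, hi, hti⟩ := ht'
    rw [Finset.mem_coe, Finset.mem_biUnion]
    exact ⟨i, hi, Finset.mem_filter.mpr ⟨ht, hti⟩⟩
  have h1 : ({t : ℕ | t ∈ S N ∧ t ∈ ⋃ i ∈ s, E i}.ncard : ℝ) ≤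
      ∑ i ∈ s, (((S N).filter fun t => t ∈ E i).card : ℝ) := by
    have h2 := Set.ncard_le_ncard hsub (Finset.finite_toSet _)
    rw [Set.ncard_coe_finset] at h2
    exact_mod_cast h2.trans Finset.card_biUnion_le
  refine h1.trans ?_
  have h2 : ∀ i ∈ s, (((S N).filter fun t => t ∈ E i).card : ℝ) ≤ ε / (s.card + 1) * (S N).card := by
    intro i hi
    have h3 := hg i hi N ((Finset.le_sup hi).trans hN)
    have h4 : {t : ℕ | t ∈ S N ∧ t ∈ E i} = ↑((S N).filter fun t => t ∈ E i) := by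
      ext t
      simp
    rw [h4, Set.ncard_coe_finset] at h3
    exact h3
  refine (Finset.sum_le_sum h2).trans ?_
  rw [Finset.sum_const, nsmul_eq_mul]
  have h5 : (s.card : ℝ) * (ε / (s.card + 1)) ≤ ε := by
    rw [mul_div_assoc', div_le_iff₀ hc0]
    nlinarith
  calc (s.card : ℝ) * (ε / (s.card + 1) * (S N).card) = (s.card * (ε / (s.card + 1))) * (S N).card := by
        ring
    _ ≤ _ := by gcongr

theorem one_set {F : ℕ → ℕ → Finset ℝ} {a : ℕ → ℕ → ℝ → ℝ} {c : ℕ → ℕ → ℝ}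
    (h : ∀ i j, c i j ∈ F i j ∧ (∀ t ∈ F i j, t ≤ c i j) ∧ 0 < c i j ∧ (∀ m : ℕ, c i j ≠ m) ∧
      0 < a i j (c i j))
    (hc : Function.Injective fun q : ℕ × ℕ => c q.1 q.2) :
    ∃ E : Set ℕ, NullIn (fun N => Ioc N (2 * N)) E ∧ NullIn Pool.Agent.N666.VE.primes E ∧
      ∀ (K : Type) [Field K] [NumberField K] (m : ℕ) (ω : Module.Basis (Fin m) ℤ (𝓞 K)) (d : ℕ),
        2 ≤ d → ∀ M : ℕ, {n : ℕ | n ∉ E ∧ ¬ LocGood d M (vec ω d
          (fl (fun q : Fin (d + 2) × Fin m => F q.1 q.2) (fun q => a q.1 q.2) n))}.Finite := by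
  classical
  obtain ⟨co, hco⟩ := exists_surjective_nat (Σ m : ℕ, (Fin m × Fin m × Fin m → ℤ))
  set E' : ℕ → Set ℕ := fun k => {n | ∃ l d : ℕ, l < k + 1 ∧ d < k + 1 ∧ 2 ≤ d ∧
    n ∈ Exc F a (co l) d k} with hE'
  have hmono : Monotone E' := by
    rintro k k' hkk n ⟨l, d, hl, hd, hd2, K, i1, i2, ω, hω, hn⟩
    refine ⟨l, d, by omega, by omega, hd2, K, i1, i2, ω, hω, fun hg => hn ?_⟩
    exact hg.mono hkk
  have hnull : ∀ (S : ℕ → Finset ℕ), (∀ κ d, 2 ≤ d → ∀ M, NullIn S (Exc F a κ d M)) →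
      ∀ k, NullIn S (E' k) := by
    intro S hS k
    have h1 := null_union (((Finset.range (k + 1)) ×ˢ (Finset.range (k + 1))).filter
      (fun q : ℕ × ℕ => 2 ≤ q.2)) (S := S) (fun q => Exc F a (co q.1) q.2 k)
      (fun q hq => hS _ _ (Finset.mem_filter.mp hq).2 _)
    have h2 : E' k ⊆ ⋃ q ∈ ((Finset.range (k + 1)) ×ˢ (Finset.range (k + 1))).filter
      (fun q : ℕ × ℕ => 2 ≤ q.2), Exc F a (co q.1) q.2 k := by
      rintro n ⟨l, d, hl, hd, hd2, hn⟩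
      simp only [Set.mem_iUnion]
      refine ⟨(l, d), ?_, hn⟩
      simp only [Finset.mem_filter, Finset.mem_product, Finset.mem_range]
      exact ⟨⟨hl, hd⟩, hd2⟩
    exact null_mono h2 h1
  obtain ⟨E, h1, h2, h3⟩ := Pool.Agent.N666.TM.diag hmono
    (S₁ := fun N => Ioc N (2 * N)) (S₂ := Pool.Agent.N666.VE.primes)
    (fun N => Finset.Subset.refl _) (fun N => Finset.filter_subset _ _)
    (hnull _ fun κ d hd M => (exc_null h hc κ d hd M).1)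
    (hnull _ fun κ d hd M => (exc_null h hc κ d hd M).2)
  refine ⟨E, h1, h2, ?_⟩
  intro K _ _ m ω d hd M
  obtain ⟨l, hl⟩ := hco ⟨m, code ω⟩
  refine (h3 (l + d + M)).subset ?_
  rintro n ⟨hnE, hn⟩
  refine ⟨?_, hnE⟩
  refine ⟨l, d, by omega, by omega, hd, ?_⟩
  rw [hl]
  exact ⟨K, inferInstance, inferInstance, ω, rfl, fun hg => hn (hg.mono (by omega))⟩

end Pool.Agent.N692.TS
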