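import Pool.Agent.TH120.Sec.Split

set_option autoImplicit false

/-! # Many prime numbers below a prime ideal of degree one: a divergent sum -/

namespace Pool.Agent.N692.TS

open Polynomial NumberField IsDedekindDomain
open Pool.Agent.W401.Cheb

theorem prime_of_frob {K : Type} [Field K] [NumberField K] {L : Type} [Field L] [NumberField L]
    [IsGalois ℚ L] (i : K →+* L) (τ : L ≃ₐ[ℚ] L) (hτi : ∀ x, τ (i x) = i x) (m p : ℕ)
    (hp : p ∈ Pool.Agent.W723.SecC.frobSet L τ m) :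
    p.Prime ∧ ¬ p ∣ m ∧ ∃ v : HeightOneSpectrum (𝓞 K), Ideal.absNorm v.asIdeal = p := by
  classical
  let iO : 𝓞 K →+* 𝓞 L := RingOfIntegers.mapRingHom i
  have hiO : ∀ x, ((iO x : 𝓞 L) : L) = i x := fun x => rfl
  have hsmul : ∀ x : 𝓞 L, ((τ • x : 𝓞 L) : L) = τ x := fun x => rfl
  have hτO : ∀ x, τ • (iO x) = iO x := by
    intro x
    apply RingOfIntegers.ext
    rw [hsmul, hiO, hτi]
  obtain ⟨hpp, hpm, hxp⟩ := hp
  refine ⟨hpp, hpm, ?_⟩
  have : Fact p.Prime := ⟨hpp⟩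
  have hex : ∃ φ : 𝓞 L →+* AlgebraicClosure (ZMod p), HasFrob p φ τ := by
    unfold xp at hxp
    rw [dif_pos hpp] at hxp
    by_contra h
    push Not at h
    apply hxp
    rw [Nat.card_eq_zero]
    left
    exact ⟨fun x => h x.1 x.2⟩
  obtain ⟨φ, hφ⟩ := hex
  let ψ : 𝓞 K →+* AlgebraicClosure (ZMod p) := φ.comp iO
  have hψ : ∀ x, ψ x ^ p = ψ x := by
    intro x
    have h1 := hφ (iO x)
    rw [hτO] at h1
    exact h1.symm
  have hnorm := Pool.Agent.W723.SecC.absNorm_ker K p (AlgebraicClosure (ZMod p)) ψ hψ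
  have hprime : (RingHom.ker ψ).IsPrime := RingHom.ker_isPrime ψ
  have hbot : RingHom.ker ψ ≠ ⊥ := by
    intro h
    rw [h, Ideal.absNorm_bot] at hnorm
    exact hpp.ne_zero hnorm.symm
  exact ⟨⟨RingHom.ker ψ, hprime, hbot⟩, hnorm⟩

/-- The sum of `1 / p - 1 / p ^ 2` over the prime numbers above `M` that are norms of prime ideals
diverges. -/
theorem supply_sum (K : Type) [Field K] [NumberField K] (M : ℕ) (B : ℝ) :
    ∃ (U : Finset ℕ) (v : ℕ → HeightOneSpectrum (𝓞 K)),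
      (∀ p ∈ U, p.Prime ∧ M < p ∧ Ideal.absNorm (v p).asIdeal = p) ∧
      B ≤ ∑ p ∈ U, (1 / (p : ℝ) - 1 / (p : ℝ) ^ 2) := by
  classical
  obtain ⟨L, _, _, _, i, τ, κ, hκi, hκτ, -⟩ :=
    Pool.Agent.TH120.Sec.exists_L K ∅ Set.finite_empty AlgEquiv.refl
  have hτ : ∀ x, τ x = x := by
    intro x
    apply κ.injective
    rw [hκτ]
    rfl
  obtain ⟨δ', C', hδpos, hcount⟩ :=
    Pool.Agent.W723.SecC.count L τ M.factorial M.factorial_pos
  set S := Pool.Agent.W723.SecC.frobSet L τ M.factorial with hS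
  have key : ∀ p ∈ S, p.Prime ∧ ¬ p ∣ M.factorial ∧
      ∃ v : HeightOneSpectrum (𝓞 K), Ideal.absNorm v.asIdeal = p :=
    fun p hp => prime_of_frob i τ (fun x => hτ _) _ p hp
  have hdiv := Pool.Agent.W723.SecC.diverge S δ' C' hδpos hcount
  have hne : ∃ p, p ∈ S := by
    by_contra h
    push Not at h
    obtain ⟨N, hN⟩ := hdiv 1
    have : ∑ n ∈ Finset.range N, Set.indicator S (fun _ => (1 : ℝ)) n * (1 / ((n : ℝ) + 1)) = 0 :=
      Finset.sum_eq_zero fun n _ => by rw [Set.indicator_of_notMem (h n), zero_mul]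
    rw [this] at hN
    norm_num at hN
  obtain ⟨p₀, hp₀⟩ := hne
  have : Nonempty (HeightOneSpectrum (𝓞 K)) := ⟨(key p₀ hp₀).2.2.choose⟩
  have key' : ∀ p, ∃ v : HeightOneSpectrum (𝓞 K), p ∈ S → Ideal.absNorm v.asIdeal = p := by
    intro p
    by_cases hp : p ∈ S
    · obtain ⟨v, hv⟩ := (key p hp).2.2
      exact ⟨v, fun _ => hv⟩
    · exact ⟨Classical.arbitrary _, fun h => absurd h hp⟩
  choose v hv using key'
  obtain ⟨N, hN⟩ := hdiv (2 * B)
  refine ⟨(Finset.range N).filter (fun n => n ∈ S), v, ?_, ?_⟩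
  · intro p hp
    have hpS := (Finset.mem_filter.mp hp).2
    obtain ⟨h1, h2, -⟩ := key p hpS
    refine ⟨h1, ?_, hv p hpS⟩
    by_contra h
    exact h2 ((Nat.Prime.dvd_factorial h1).mpr (not_lt.mp h))
  · have h2 : ∑ n ∈ Finset.range N,
        Set.indicator S (fun _ => (1 : ℝ)) n * (1 / ((n : ℝ) + 1)) ≤
        2 * ∑ p ∈ (Finset.range N).filter (fun n => n ∈ S), (1 / (p : ℝ) - 1 / (p : ℝ) ^ 2) := by
      rw [Finset.sum_filter, Finset.mul_sum]
      refine Finset.sum_le_sum fun n hn => ?_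
      by_cases hnS : n ∈ S
      · rw [Set.indicator_of_mem hnS, if_pos hnS, one_mul]
        have h3 : (2 : ℝ) ≤ n := by exact_mod_cast (key n hnS).1.two_le
        rw [show 2 * (1 / (n : ℝ) - 1 / (n : ℝ) ^ 2) = (2 * n - 2) / (n : ℝ) ^ 2 by
          field_simp]
        rw [div_le_div_iff₀ (by linarith) (by positivity)]
        nlinarith
      · rw [Set.indicator_of_notMem hnS, if_neg hnS]
        simp
    linarith

end Pool.Agent.N692.TS
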